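import Pool.Agent.J4H20.TQ.Stm

/-! # Project TQ, (PL): roots from limits in several places -/

set_option autoImplicit false

namespace Pool.Agent.J4H97.TQ

open Polynomial Filter Topology

/-- a root near a point where the derivative is not small -/
theorem root_near (n : ℕ) (R : ℂ[X]) (z : ℂ) (hn : R.natDegree ≤ n) (h' : (derivative R).eval z ≠ 0) :
    ∃ ζ : ℂ, R.eval ζ = 0 ∧ ‖ζ - z‖ ≤ 2 * n * ‖R.eval z‖ / ‖(derivative R).eval z‖ := by
  by_cases h0 : R.eval z = 0
  · exact ⟨z, h0, by simp [h0]⟩
  by_contra hcon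
  push Not at hcon
  have hR0 : R ≠ 0 := by
    rintro rfl
    simp at h0
  have hn0 : 0 < (n : ℝ) := by
    have : 0 < R.natDegree := by
      by_contra hd
      have hd' : R.natDegree = 0 := by omega
      rw [eq_C_of_natDegree_eq_zero hd'] at h'
      simp at h'
    exact_mod_cast lt_of_lt_of_le this hn
  have a0 : 0 < ‖R.eval z‖ := norm_pos_iff.2 h0
  have b0 : 0 < ‖(derivative R).eval z‖ := norm_pos_iff.2 h'
  set δ : ℝ := 2 * n * ‖R.eval z‖ / ‖(derivative R).eval z‖ with hδ
  have hδ0 : 0 < δ := by positivity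
  have hs := (IsAlgClosed.splits R).eval_derivative_div_eval_of_ne_zero h0
  have h1 : ‖(R.roots.map fun w ↦ 1 / (z - w)).sum‖ ≤ n * δ⁻¹ := by
    refine (norm_multiset_sum_le _).trans ?_
    rw [Multiset.map_map]
    have h2 : ∀ x ∈ R.roots.map (norm ∘ fun w ↦ 1 / (z - w)), x ≤ δ⁻¹ := by
      intro x hx
      obtain ⟨w, hw, rfl⟩ := Multiset.mem_map.1 hx
      have hw' := hcon w ((mem_roots hR0).1 hw)
      simp only [Function.comp, one_div]
      rw [norm_inv, norm_sub_rev]
      exact inv_anti₀ hδ0 hw'.le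
    refine (Multiset.sum_le_card_nsmul _ _ h2).trans ?_
    rw [Multiset.card_map, nsmul_eq_mul]
    refine mul_le_mul_of_nonneg_right ?_ (inv_pos.2 hδ0).le
    exact_mod_cast (card_roots' R).trans hn
  rw [← hs, norm_div] at h1
  have h3 : (n : ℝ) * δ⁻¹ = (‖(derivative R).eval z‖ / ‖R.eval z‖) / 2 := by
    rw [hδ]
    field_simp
  rw [h3] at h1
  have : 0 < ‖(derivative R).eval z‖ / ‖R.eval z‖ := by positivity
  linarith

/-- values from coefficients -/
theorem lim_aeval (n : ℕ) (R : ℕ → ℝ[X]) (Q : ℝ[X]) (hn : ∀ k, (R k).natDegree ≤ n)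
    (h : ∀ d, Tendsto (fun k => (R k).coeff d) atTop (𝓝 (Q.coeff d))) (ζ : ℕ → ℂ) (z : ℂ)
    (hz : Tendsto ζ atTop (𝓝 z)) : Tendsto (fun k => aeval (ζ k) (R k)) atTop (𝓝 (aeval z Q)) := by
  have hQ : Q.natDegree ≤ n := by
    rw [natDegree_le_iff_coeff_eq_zero]
    intro N hN
    refine tendsto_nhds_unique (h N) ?_
    have : (fun k => (R k).coeff N) = fun _ => 0 := by
      funext k
      exact coeff_eq_zero_of_natDegree_lt ((hn k).trans_lt hN)
    rw [this]
    exact tendsto_const_nhds
  have e1 : (fun k => aeval (ζ k) (R k)) = fun k => ∑ i ∈ Finset.range (n + 1), (R k).coeff i • (ζ k) ^ i := by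
    funext k
    exact aeval_eq_sum_range' (Nat.lt_succ_of_le (hn k)) _
  rw [e1, aeval_eq_sum_range' (Nat.lt_succ_of_le hQ)]
  exact tendsto_finsetSum _ fun i _ => (h i).smul (hz.pow i)

theorem lim_der (R : ℕ → ℝ[X]) (Q : ℝ[X])
    (h : ∀ d, Tendsto (fun k => (R k).coeff d) atTop (𝓝 (Q.coeff d))) (d : ℕ) :
    Tendsto (fun k => (derivative (R k)).coeff d) atTop (𝓝 ((derivative Q).coeff d)) := by
  simp only [coeff_derivative]
  exact (h (d + 1)).mul_const _

/-- **(PL)** -/
theorem t_PL : Pool.Agent.J4H20.TQ.S_PL := by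
  classical
  intro ι _ P u v c Q z hP hv hlim hz hsep
  set n := Fintype.card ι with hnd
  -- the rescaled polynomials
  set R : ι → ℕ → ℝ[X] := fun i k => C (c i k) * (P k).comp (C (u i k) + C (v i k) * X) with hR
  have hlin : ∀ i k, (C (u i k) + C (v i k) * X : ℝ[X]).natDegree ≤ 1 := by
    intro i k
    compute_degree
  have hRn : ∀ i k, (R i k).natDegree ≤ n := by
    intro i k
    refine (natDegree_C_mul_le _ _).trans ?_
    refine natDegree_comp_le.trans ?_
    calc (P k).natDegree * (C (u i k) + C (v i k) * X : ℝ[X]).natDegree ≤ (P k).natDegree * 1 :=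
        Nat.mul_le_mul_left _ (hlin i k)
      _ ≤ n := by rw [mul_one]; exact (hP k).2
  have hRc : ∀ i d, Tendsto (fun k => (R i k).coeff d) atTop (𝓝 ((Q i).coeff d)) := by
    intro i d
    refine (hlim i d).congr fun k => ?_
    rw [hR]
    exact (coeff_C_mul _).symm
  have hRe : ∀ i k (x : ℂ), aeval x (R i k) = c i k * aeval ((u i k : ℂ) + v i k * x) (P k) := by
    intro i k x
    simp [hR, aeval_comp]
  have hRd : ∀ i k (x : ℂ), aeval x (derivative (R i k)) =
      c i k * v i k * aeval ((u i k : ℂ) + v i k * x) (derivative (P k)) := by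
    intro i k x
    simp [hR, aeval_comp, derivative_comp]
    ring
  have hRm : ∀ i k (x : ℂ), aeval x (R i k) = ((R i k).map (algebraMap ℝ ℂ)).eval x := by
    intro i k x
    rw [eval_map_algebraMap]
  have hRm' : ∀ i k (x : ℂ), aeval x (derivative (R i k)) =
      (derivative ((R i k).map (algebraMap ℝ ℂ))).eval x := by
    intro i k x
    rw [derivative_map, eval_map_algebraMap]
  -- the roots
  have hex : ∀ i k, ∃ ζ : ℂ, (aeval (z i) (derivative (R i k)) ≠ 0 → aeval ζ (R i k) = 0) ∧
      ‖ζ - z i‖ ≤ 2 * n * ‖aeval (z i) (R i k)‖ / ‖aeval (z i) (derivative (R i k))‖ := by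
    intro i k
    by_cases h0 : aeval (z i) (derivative (R i k)) = 0
    · exact ⟨z i, fun h => absurd h0 h, by simp [h0]⟩
    · have h0' := h0
      rw [hRm'] at h0'
      obtain ⟨ζ, h1, h2⟩ := root_near n ((R i k).map (algebraMap ℝ ℂ)) (z i)
        (natDegree_map_le.trans (hRn i k)) h0'
      exact ⟨ζ, fun _ => by rw [hRm]; exact h1, by rw [hRm, hRm']; exact h2⟩
  choose ζ hζ1 hζ2 using hex
  have hL : ∀ i, Tendsto (fun k => aeval (z i) (R i k)) atTop (𝓝 0) := by
    intro i
    have := lim_aeval n (R i) (Q i) (hRn i) (hRc i) _ _ (tendsto_const_nhds (x := z i))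
    rwa [(hz i).1] at this
  have hRdn : ∀ i k, (derivative (R i k)).natDegree ≤ n := by
    intro i k
    exact (natDegree_derivative_le _).trans ((Nat.sub_le _ _).trans (hRn i k))
  have hL' : ∀ i, Tendsto (fun k => aeval (z i) (derivative (R i k))) atTop
      (𝓝 (aeval (z i) (derivative (Q i)))) := by
    intro i
    exact lim_aeval n (fun k => derivative (R i k)) (derivative (Q i)) (hRdn i) (lim_der _ _ (hRc i)) _ _
      (tendsto_const_nhds (x := z i))
  have hζ : ∀ i, Tendsto (ζ i) atTop (𝓝 (z i)) := by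
    intro i
    rw [tendsto_iff_norm_sub_tendsto_zero]
    refine squeeze_zero (fun k => norm_nonneg _) (hζ2 i) ?_
    have h1 := (((hL i).norm.const_mul (2 * (n : ℝ))).div (hL' i).norm (norm_ne_zero_iff.2 (hz i).2))
    rw [norm_zero, mul_zero, zero_div] at h1
    exact h1
  have hζc : ∀ i, (z i).im = 0 → Tendsto (fun k => (starRingEnd ℂ) (ζ i k)) atTop (𝓝 (z i)) := by
    intro i hi
    have h1 := (Complex.continuous_conj.tendsto (z i)).comp (hζ i)
    have h2 : (starRingEnd ℂ) (z i) = z i := Complex.conj_eq_iff_im.2 hi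
    rw [h2] at h1
    exact h1
  -- for large `k`
  have E1 : ∀ᶠ k in atTop, ∀ i, aeval (z i) (derivative (R i k)) ≠ 0 :=
    eventually_all.2 fun i => (hL' i).eventually_ne (hz i).2
  have E2 : ∀ᶠ k in atTop, ∀ i, aeval (ζ i k) (derivative (R i k)) ≠ 0 := by
    refine eventually_all.2 fun i => ?_
    exact (lim_aeval n (fun k => derivative (R i k)) (derivative (Q i)) (hRdn i) (lim_der _ _ (hRc i)) _ _
      (hζ i)).eventually_ne (hz i).2
  have E3 : ∀ᶠ k in atTop, ∀ i j, i ≠ j →
      (u i k : ℂ) + v i k * ζ i k ≠ u j k + v j k * ζ j k := by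
    refine eventually_all.2 fun i => eventually_all.2 fun j => ?_
    by_cases hij : i = j
    · exact Eventually.of_forall fun k h => absurd hij h
    · exact (hsep i j hij _ _ (hζ i) (hζ j)).mono fun k hk _ => hk
  have E4 : ∀ᶠ k in atTop, ∀ i j, i ≠ j → (z i).im = 0 →
      (u i k : ℂ) + v i k * (starRingEnd ℂ) (ζ i k) ≠ u j k + v j k * ζ j k := by
    refine eventually_all.2 fun i => eventually_all.2 fun j => ?_
    by_cases hij : i = j
    · exact Eventually.of_forall fun k h => absurd hij h
    by_cases hi : (z i).im = 0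
    · exact (hsep i j hij _ _ (hζc i hi) (hζ j)).mono fun k hk _ _ => hk
    · exact Eventually.of_forall fun k _ h => absurd h hi
  have E5 : ∀ᶠ k in atTop, ∀ i, (z i).im ≠ 0 → (ζ i k).im ≠ 0 := by
    refine eventually_all.2 fun i => ?_
    by_cases hi : (z i).im = 0
    · exact Eventually.of_forall fun k h => absurd hi h
    · exact (((Complex.continuous_im.tendsto (z i)).comp (hζ i)).eventually_ne hi).mono fun k hk _ => hk
  filter_upwards [E1, E2, E3, E4, E5] with k h1 h2 h3 h4 h5
  set w : ι → ℂ := fun i => (u i k : ℂ) + v i k * ζ i k with hw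
  have hinj : Function.Injective w := by
    intro i j hij
    by_contra hne
    exact h3 i j hne hij
  have hc : ∀ i, c i k ≠ 0 := by
    intro i h0
    have := h2 i
    rw [hRd, h0] at this
    simp at this
  have hroot : ∀ i, aeval (w i) (P k) = 0 := by
    intro i
    have := hζ1 i k (h1 i)
    rw [hRe] at this
    rcases mul_eq_zero.1 this with h | h
    · exact absurd (by exact_mod_cast h) (hc i)
    · exact h
  have hder : ∀ i, aeval (w i) (derivative (P k)) ≠ 0 := by
    intro i h0
    have := h2 i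
    rw [hRd] at this
    exact this (by rw [show aeval ((u i k : ℂ) + v i k * ζ i k) (derivative (P k)) = 0 from h0, mul_zero])
  have hall : ∀ x : ℂ, aeval x (P k) = 0 → ∃ i, w i = x := by
    intro x hx
    by_contra hcon
    push Not at hcon
    have hm0 : (P k).map (algebraMap ℝ ℂ) ≠ 0 := by
      rw [Ne, Polynomial.map_eq_zero]
      exact (hP k).1
    have hsub : (insert x (Finset.univ.image w)).val ⊆ ((P k).map (algebraMap ℝ ℂ)).roots := by
      intro y hy
      have hy' : y ∈ insert x (Finset.univ.image w) := hy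
      rw [mem_roots hm0, IsRoot.def, eval_map_algebraMap]
      rcases Finset.mem_insert.1 hy' with rfl | hy''
      · exact hx
      · obtain ⟨i, _, rfl⟩ := Finset.mem_image.1 hy''
        exact hroot i
    have hcard := card_le_degree_of_subset_roots hsub
    rw [Finset.card_insert_of_notMem (by simpa using hcon), Finset.card_image_of_injective _ hinj,
      Finset.card_univ] at hcard
    have := hcard.trans (natDegree_map_le.trans (hP k).2)
    omega
  have hreal : ∀ i, (w i).im = 0 ↔ (z i).im = 0 := by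
    intro i
    constructor
    · intro hwi
      by_contra hi
      have h6 := h5 i hi
      have h7 : (w i).im = v i k * (ζ i k).im := by simp [hw]
      rw [h7] at hwi
      exact (mul_ne_zero (hv i k) h6) hwi
    · intro hi
      have hcr : aeval ((starRingEnd ℂ) (w i)) (P k) = 0 := by
        rw [aeval_conj, hroot i, map_zero]
      obtain ⟨j, hj⟩ := hall _ hcr
      by_cases hij : i = j
      · subst hij
        exact Complex.conj_eq_iff_im.1 hj.symm
      · exfalso
        refine h4 i j hij hi ?_
        rw [show (u j k : ℂ) + v j k * ζ j k = w j from rfl, hj]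
        simp [hw]
  refine ⟨⟨w, hinj, fun i => ⟨hroot i, hder i, hreal i⟩⟩, ?_⟩
  have himg : {x : ℝ | (P k).eval x = 0} = (fun i => (w i).re) '' {i | (z i).im = 0} := by
    ext x
    constructor
    · intro hx
      have hx' : aeval (x : ℂ) (P k) = 0 := by
        have : aeval (x : ℂ) (P k) = (((P k).eval x : ℝ) : ℂ) := by
          have := aeval_algebraMap_apply ℂ x (P k)
          simpa using this
        rw [this, show (P k).eval x = 0 from hx]
        simp
      obtain ⟨i, hi⟩ := hall _ hx'
      refine ⟨i, ?_, ?_⟩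
      · show (z i).im = 0
        rw [← hreal i, hi]
        simp
      · show (w i).re = x
        rw [hi]
        simp
    · rintro ⟨i, hi, rfl⟩
      have hwi : (((w i).re : ℝ) : ℂ) = w i := by
        apply Complex.ext
        · simp
        · simp [(hreal i).2 hi]
      show (P k).eval (w i).re = 0
      have h8 : (((P k).eval (w i).re : ℝ) : ℂ) = 0 := by
        have h9 := aeval_algebraMap_apply ℂ (w i).re (P k)
        have h10 : aeval (((w i).re : ℝ) : ℂ) (P k) = (((P k).eval (w i).re : ℝ) : ℂ) := by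
          simpa using h9
        rw [← h10, hwi]
        exact hroot i
      exact_mod_cast h8
  rw [himg, Set.InjOn.ncard_image]
  intro i hi j hj hij
  apply hinj
  apply Complex.ext
  · exact hij
  · rw [(hreal i).2 hi, (hreal j).2 hj]

end Pool.Agent.J4H97.TQ
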