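import Pool.Agent.J4H20.TQ.Stm
import Pool.Agent.J4H19.TP.R1P

/-! # Project TQ, (G): the `p`-th root with a parameter, modulo `ε ^ 2` -/

set_option autoImplicit false

namespace Pool.Agent.J4H97.TQ

open Polynomial Pool.Agent.J4H19.TP

theorem prod_lin {R : Type} [CommRing R] (Y t : R) (ht : t ^ 2 = 0) {ι : Type} (s : Finset ι)
    (c : ι → R) : ∏ i ∈ s, (Y - t * c i) = Y ^ s.card - t * (∑ i ∈ s, c i) * Y ^ (s.card - 1) := by
  classical
  induction s using Finset.induction_on with
  | empty => simp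
  | insert a s ha ih =>
    rw [Finset.prod_insert ha, ih, Finset.sum_insert ha, Finset.card_insert_of_notMem ha,
      Nat.add_sub_cancel]
    rcases Nat.eq_zero_or_pos s.card with h0 | h0
    · have : s = ∅ := Finset.card_eq_zero.1 h0
      subst this
      simp
    · obtain ⟨n, hn⟩ : ∃ n, s.card = n + 1 := ⟨s.card - 1, by omega⟩
      rw [hn, Nat.add_sub_cancel]
      linear_combination (c a * (∑ i ∈ s, c i) * Y ^ n) * ht

/-- uniqueness of the root over every ring in which `p` is a unit -/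
theorem root_uniq {R : Type} [CommRing R] [Nontrivial R] (p n : ℕ) (t : R)
    (ht : ((p + 2 : ℕ) : R) * t = 1) (A G r : R[X]) (hA : A.Monic) (hAn : A.natDegree = n)
    (hG : G.Monic) (hGn : G.natDegree = n) (hr : ∀ k, (p + 1) * n ≤ k → r.coeff k = 0)
    (h : A ^ (p + 2) = G ^ (p + 2) + r) : A = G := by
  by_contra hne
  set S : R[X] := ∑ i ∈ Finset.range (p + 2), A ^ i * G ^ (p + 2 - 1 - i) with hS
  have h1 : S * (A - G) = r := by
    rw [hS, (Commute.all A G).geom_sum₂_mul]
    linear_combination h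
  have h2 : A - G ≠ 0 := sub_ne_zero.2 hne
  have hT : ∀ i ∈ Finset.range (p + 2), (A ^ i * G ^ (p + 2 - 1 - i)).Monic ∧
      (A ^ i * G ^ (p + 2 - 1 - i)).natDegree = (p + 1) * n := by
    intro i hi
    rw [Finset.mem_range] at hi
    refine ⟨(hA.pow _).mul (hG.pow _), ?_⟩
    rw [(hA.pow _).natDegree_mul (hG.pow _), hA.natDegree_pow, hG.natDegree_pow, hAn, hGn,
      ← add_mul]
    congr 1
    omega
  have h3 : S.coeff ((p + 1) * n) = (p + 2 : ℕ) := by
    rw [hS, finsetSum_coeff]
    have : ∀ i ∈ Finset.range (p + 2), (A ^ i * G ^ (p + 2 - 1 - i)).coeff ((p + 1) * n) = 1 := by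
      intro i hi
      rw [← (hT i hi).2]
      exact (hT i hi).1
    rw [Finset.sum_congr rfl this]
    simp
  have h4 : S.natDegree ≤ (p + 1) * n := natDegree_sum_le_of_forall_le _ _ fun i hi => (hT i hi).2.le
  have hM : (C t * S).Monic := by
    refine monic_of_natDegree_le_of_coeff_eq_one ((p + 1) * n) ((natDegree_C_mul_le _ _).trans h4) ?_
    rw [coeff_C_mul, h3, mul_comm, ht]
  have hMn : (C t * S).natDegree = (p + 1) * n := by
    refine le_antisymm ((natDegree_C_mul_le _ _).trans h4) (le_natDegree_of_ne_zero ?_)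
    rw [coeff_C_mul, h3, mul_comm, ht]
    exact one_ne_zero
  have h5 : (C t * S) * (A - G) = C t * r := by rw [mul_assoc, h1]
  have h6 : ((C t * S) * (A - G)).natDegree = (C t * S).natDegree + (A - G).natDegree :=
    hM.natDegree_mul' h2
  have h7 : (C t * S) * (A - G) ≠ 0 := by
    intro h0
    exact h2 ((hM.mul_right_eq_zero_iff).1 h0)
  apply h7
  rw [← leadingCoeff_eq_zero, leadingCoeff, h6, h5, coeff_C_mul, hr _ (by omega), mul_zero]

/-- **(G)** -/
theorem t_G : Pool.Agent.J4H20.TQ.S_G := by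
  classical
  intro p' e a α hp' hα
  obtain ⟨p, rfl⟩ : ∃ p, p' = p + 2 := ⟨p' - 2, by omega⟩
  have hsub : p + 2 - 1 = p + 1 := by omega
  set F : ℚ[X][X] := ∏ i : Fin (p + 2) × Fin e, (X - C (C (a i.2) + X * C (α i))) with hF
  have hm : F.Monic := monic_prod_of_monic _ _ fun i _ => monic_X_sub_C _
  have hd : F.natDegree = (p + 2) * e := by
    rw [hF, natDegree_prod_of_monic _ _ fun i _ => monic_X_sub_C _]
    simp only [natDegree_X_sub_C]
    simp
  have ht : ((p + 2 : ℕ) : ℚ[X]) * C (1 / ((p + 2 : ℕ) : ℚ)) = 1 := by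
    have h0 : ((p + 2 : ℕ) : ℚ) ≠ 0 := by positivity
    have : ((p + 2 : ℕ) : ℚ[X]) = C ((p + 2 : ℕ) : ℚ) := (map_natCast C _).symm
    rw [this, ← C_mul, mul_one_div_cancel h0, C_1]
  obtain ⟨G, hG, hGn, hc⟩ := root_step p (C (1 / ((p + 2 : ℕ) : ℚ))) ht e F hm hd e le_rfl
  have hc' : ∀ k, (p + 1) * e ≤ k → (F - G ^ (p + 2)).coeff k = 0 := fun k hk => hc k (by
    have : (p + 2) * e = (p + 1) * e + e := by ring
    omega)
  set A : ℚ[X] := ∏ j, (X - C (a j)) with hA
  have hAm : A.Monic := monic_prod_of_monic _ _ fun i _ => monic_X_sub_C _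
  have hAn : A.natDegree = e := by
    rw [hA, natDegree_prod_of_monic _ _ fun i _ => monic_X_sub_C _]
    simp only [natDegree_X_sub_C]
    simp
  set A' : ℚ[X][X] := A.map C with hA'
  have hAm' : A'.Monic := hAm.map _
  have hAn' : A'.natDegree = e := by rw [hA', hAm.natDegree_map, hAn]
  -- modulo the square of the parameter
  set I : Ideal ℚ[X] := Ideal.span {(X : ℚ[X]) ^ 2} with hI
  set mk := Ideal.Quotient.mk I with hmk
  have hnt : Nontrivial (ℚ[X] ⧸ I) := by
    rw [Ideal.Quotient.nontrivial_iff, hI, Ne, Ideal.span_singleton_eq_top]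
    intro hu
    exact not_isUnit_X ((isUnit_pow_iff two_ne_zero).1 hu)
  have hX2 : (mk X) ^ 2 = 0 := by
    rw [← map_pow, hmk, Ideal.Quotient.eq_zero_iff_mem, hI]
    exact Ideal.mem_span_singleton_self _
  have hFm : F.map mk = (A'.map mk) ^ (p + 2) := by
    have e1 : A'.map mk = ∏ j, (X - C (mk (C (a j)))) := by
      rw [hA', hA, Polynomial.map_map, Polynomial.map_prod]
      refine Finset.prod_congr rfl fun j _ => ?_
      simp
    have e2 : F.map mk = ∏ j : Fin e, ∏ i : Fin (p + 2),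
        ((X - C (mk (C (a j)))) - C (mk X) * C (mk (C (α (i, j))))) := by
      rw [hF, Polynomial.map_prod, Fintype.prod_prod_type_right]
      refine Finset.prod_congr rfl fun j _ => Finset.prod_congr rfl fun i _ => ?_
      rw [Polynomial.map_sub, map_X, map_C, map_add, map_mul, map_add, map_mul]
      ring
    rw [e1, e2, ← Finset.prod_pow]
    refine Finset.prod_congr rfl fun j _ => ?_
    have ht2 : (C (mk X) : (ℚ[X] ⧸ I)[X]) ^ 2 = 0 := by rw [← C_pow, hX2, C_0]
    rw [prod_lin (X - C (mk (C (a j)))) (C (mk X)) ht2 Finset.univ (fun i => C (mk (C (α (i, j)))))]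
    have e3 : ∑ i : Fin (p + 2), (C (mk (C (α (i, j)))) : (ℚ[X] ⧸ I)[X]) = 0 := by
      rw [← map_sum, ← map_sum, ← map_sum, hα j]
      simp
    rw [e3]
    simp
  have hAG : A'.map mk = G.map mk := by
    refine root_uniq p e (mk (C (1 / ((p + 2 : ℕ) : ℚ)))) ?_ _ _ ((F - G ^ (p + 2)).map mk)
      (hAm'.map _) (by rw [hAm'.natDegree_map, hAn']) (hG.map _) (by rw [hG.natDegree_map, hGn]) ?_ ?_
    · rw [← map_natCast mk, ← map_mul, ht, map_one]
    · intro k hk
      rw [coeff_map, hc' k hk, map_zero]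
    · rw [← hFm, ← Polynomial.map_pow, ← Polynomial.map_add]
      congr 1
      ring
  have hdiv : ∀ k, ∃ q : ℚ[X], (G - A').coeff k = X ^ 2 * q := by
    intro k
    have h1 : mk ((G - A').coeff k) = 0 := by
      have : (G.map mk).coeff k = (A'.map mk).coeff k := by rw [hAG]
      rw [coeff_map, coeff_map] at this
      rw [coeff_sub, map_sub, this, sub_self]
    rw [hmk, Ideal.Quotient.eq_zero_iff_mem, hI, Ideal.mem_span_singleton] at h1
    exact h1
  choose h hh using hdiv
  refine ⟨fun j => h (j : ℕ), fun j => (F - G ^ (p + 2)).coeff (j : ℕ), fun ε => ?_⟩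
  have hmapF : F.map (evalRingHom ε) = ∏ i : Fin (p + 2) × Fin e, (X - C (a i.2 + ε * α i)) := by
    rw [hF, Polynomial.map_prod]
    refine Finset.prod_congr rfl fun i _ => ?_
    rw [Polynomial.map_sub, map_X, map_C]
    congr 2
    simp only [coe_evalRingHom, eval_add, eval_mul, eval_C, eval_X]
  have hmapG : G.map (evalRingHom ε) =
      A + C (ε ^ 2) * ∑ j : Fin e, C ((h (j : ℕ)).eval ε) * X ^ (j : ℕ) := by
    ext k
    rw [coeff_map, coeff_add, coeff_C_mul, sum_coeff e (fun j => (h j).eval ε), coe_evalRingHom]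
    have h1 : G.coeff k = A'.coeff k + (G - A').coeff k := by rw [coeff_sub]; ring
    have h2 : (A'.coeff k).eval ε = A.coeff k := by rw [hA', coeff_map, eval_C]
    rw [h1, eval_add, h2]
    congr 1
    split_ifs with hk
    · rw [hh k]
      simp
    · have h3 : (G - A').coeff k = 0 := by
        rcases Nat.lt_or_ge e k with h4 | h4
        · rw [coeff_sub, coeff_eq_zero_of_natDegree_lt (by omega),
            coeff_eq_zero_of_natDegree_lt (by omega), sub_zero]
        · have h5 : k = e := by omega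
          have h6 : G.coeff e = 1 := by rw [← hGn]; exact hG
          have h7 : A'.coeff e = 1 := by rw [← hAn']; exact hAm'
          rw [h5, coeff_sub, h6, h7, sub_self]
      rw [h3]
      simp
  have hmapR : (F - G ^ (p + 2)).map (evalRingHom ε)
      = ∑ j : Fin ((p + 1) * e), C (((F - G ^ (p + 2)).coeff (j : ℕ)).eval ε) * X ^ (j : ℕ) := by
    ext k
    rw [coeff_map, sum_coeff ((p + 1) * e) (fun j => ((F - G ^ (p + 2)).coeff j).eval ε),
      coe_evalRingHom]
    split_ifs with h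
    · rfl
    · rw [hc' k (by omega), eval_zero]
  show ∏ i : Fin (p + 2) × Fin e, (X - C (a i.2 + ε * α i)) =
    (A + C (ε ^ 2) * ∑ j : Fin e, C ((h (j : ℕ)).eval ε) * X ^ (j : ℕ)) ^ (p + 2) +
      ∑ j : Fin ((p + 1) * e), C (((F - G ^ (p + 2)).coeff (j : ℕ)).eval ε) * X ^ (j : ℕ)
  rw [← hmapF, ← hmapG, ← hmapR, ← Polynomial.map_pow, ← Polynomial.map_add]
  congr 1
  ring

end Pool.Agent.J4H97.TQ
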